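import Pool.Agent.Helper42.LK.KLB
import Pool.Agent.Helper99.LS5.KPMX

/-!
Project LS5, row KLBX: the local package with explicit component.
-/

open Filter Topology NumberField

namespace Pool.Agent.Helper99.LS5

open Pool.Agent.Helper42.LS Pool.Agent.Helper42.LK

/-- the explicit value of `t` -/
def TEx {F : Type} [Field F] (v : DV F) (A B x : F) (t : ℝ) : Prop :=
  t = 0 ∨ (IsMul v.nr A B ∧ ∃ N : ℕ, 1 ≤ N ∧ v.ord (6912 * A ^ 3 / dsc A B) = -(N : ℤ) ∧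
    dl v.nr A B = N * Real.log v.q ∧ t = 12 * alpK v N (3 + 2 * A * x / B) / N)

/-- KLBX : local package, residue characteristic not 2, 3, explicit component -/
def ST_KLBX : Prop := ∀ (F : Type) [Field F] [CharZero F] (v : DV F), v.ord 2 = 0 → v.ord 3 = 0 →
  ∀ A B : F, dsc A B ≠ 0 → ∀ x y : ℕ → F, GSeq (0 : F) A B x y →
  ∃ (t : ℝ) (n : ℕ) (U : ℕ → ℝ), 0 ≤ dl v.nr A B ∧ 1 ≤ n ∧ (∃ a : ℤ, (n : ℝ) * t = a) ∧
    (dl v.nr A B ≠ 0 → n * Real.log v.q ≤ dl v.nr A B) ∧ (t ≠ 0 → IsMul v.nr A B) ∧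
    (∀ k : ℕ, 1 ≤ k → 4 * U k ≤ U (2 * k) + Real.log (v.nr (4 * cu A B (x k)))) ∧
    (∃ C : ℝ, ∀ k : ℕ, 1 ≤ k → U k ≤ Real.log (max (v.nr (x k)) 1) + C) ∧
    (∀ k : ℕ, 1 ≤ k → dl v.nr A B * B2 (k * t) + 1 / 6 * Real.log (v.nr (dsc A B)) ≤ U (12 * k)) ∧
    TEx v A B (x 1) t

theorem z_scale {F : Type} [Field F] {A B x u : F} (hu : u ≠ 0) :
    3 + 2 * (u ^ 4 * A) * (u ^ 2 * x) / (u ^ 6 * B) = 3 + 2 * A * x / B := by
  rw [show 2 * (u ^ 4 * A) * (u ^ 2 * x) = u ^ 6 * (2 * A * x) by ring,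
    mul_div_mul_left _ _ (pow_ne_zero 6 hu)]

theorem j_scale {F : Type} [Field F] {A B u : F} (hu : u ≠ 0) :
    6912 * (u ^ 4 * A) ^ 3 / dsc (u ^ 4 * A) (u ^ 6 * B) = 6912 * A ^ 3 / dsc A B := by
  rw [klb_dsc, show 6912 * (u ^ 4 * A) ^ 3 = u ^ 12 * (6912 * A ^ 3) by ring,
    mul_div_mul_left _ _ (pow_ne_zero 12 hu)]

theorem st_KLBX (hPM : ST_KPMX) (hPG : ST_KPG) (hAD : ST_KAD) (hMN : ST_KMN) (hSC : ST_KSC) :
    ST_KLBX := by
  intro F _ _ v h2 h3 A₀ B₀ hD₀ x₀ y₀ hg₀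
  obtain ⟨u, hu0, huA, huB, hmin, hdl, -⟩ := hMN F v A₀ B₀ hD₀
  obtain ⟨h6912, h16, h27, h4⟩ := klb_ord_num v h2 h3
  have hg := hSC F A₀ B₀ u x₀ y₀ hu0 hg₀
  have hlogD := klb_log_dsc v hu0 hD₀
  have hD : dsc (u ^ 4 * A₀) (u ^ 6 * B₀) ≠ 0 := by
    rw [klb_dsc]; exact mul_ne_zero (pow_ne_zero _ hu0) hD₀
  have hlq := v.log_q_pos
  -- a potential for the minimal equation suffices
  suffices hkey : ∃ (t : ℝ) (n : ℕ) (U : ℕ → ℝ), 0 ≤ dl v.nr A₀ B₀ ∧ 1 ≤ n ∧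
      (∃ a : ℤ, (n : ℝ) * t = a) ∧
      (dl v.nr A₀ B₀ ≠ 0 → n * Real.log v.q ≤ dl v.nr A₀ B₀) ∧ (t ≠ 0 → IsMul v.nr A₀ B₀) ∧
      (∀ k : ℕ, 1 ≤ k → 4 * U k - 0 ≤ U (2 * k) +
        Real.log (v.nr (4 * cu (u ^ 4 * A₀) (u ^ 6 * B₀) (u ^ 2 * x₀ k)))) ∧
      (∃ C : ℝ, ∀ k : ℕ, 1 ≤ k → U k ≤ Real.log (max (v.nr (u ^ 2 * x₀ k)) 1) + C) ∧
      (∀ k : ℕ, 1 ≤ k → dl v.nr A₀ B₀ * B2 (k * t) +
        1 / 6 * Real.log (v.nr (dsc (u ^ 4 * A₀) (u ^ 6 * B₀))) ≤ U (12 * k)) ∧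
      TEx v A₀ B₀ (x₀ 1) t by
    obtain ⟨t, n, U, h5, h6, h7, h8, h9, h10, h11, h12, h12'⟩ := hkey
    obtain ⟨h13, h14⟩ := klb_scale v hu0 hg₀ h10 h11
    refine ⟨t, n, fun k => U k - 2 * Real.log (v.nr u), h5, h6, h7, h8, h9, ?_, h14, ?_, h12'⟩
    · intro k hk; have := h13 k hk; linarith
    · intro k hk
      have := h12 k hk
      rw [hlogD] at this
      simp only
      linarith
  set A := u ^ 4 * A₀ with hA
  set B := u ^ 6 * B₀ with hB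
  have hAint : v.nr A ≤ 1 := huA
  have hBint : v.nr B ≤ 1 := huB
  -- the discriminant is integral
  have hDint : v.nr (dsc A B) ≤ 1 := by
    unfold dsc
    refine (v.nr_add_le _ _).trans (max_le ?_ ?_)
    · rw [v.nr_mul, v.nr_pow]
      exact mul_le_one₀ (v.nr_ofNat 4) (pow_nonneg (v.nr_nonneg _) _)
        (pow_le_one₀ (v.nr_nonneg _) hAint)
    · rw [v.nr_mul, v.nr_pow]
      exact mul_le_one₀ (v.nr_ofNat 27) (pow_nonneg (v.nr_nonneg _) _)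
        (pow_le_one₀ (v.nr_nonneg _) hBint)
  have hordD : 0 ≤ v.ord (dsc A B) := (v.nr_le_one_iff hD).1 hDint
  obtain ⟨N, hN⟩ : ∃ N : ℕ, v.ord (dsc A B) = N := ⟨(v.ord (dsc A B)).toNat, by
    rw [Int.toNat_of_nonneg hordD]⟩
  have hdlN : dl v.nr A₀ B₀ = N * Real.log v.q := by
    rw [hdl, v.log_nr hD, hN]; push_cast; ring
  have hlogDN : Real.log (v.nr (dsc A B)) = -(N * Real.log v.q) := by
    rw [v.log_nr hD, hN]; push_cast; ring
  have hdl0 : 0 ≤ dl v.nr A₀ B₀ := by rw [hdlN]; positivity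
  -- the part with t = 0
  have hzero : (∃ U : ℕ → ℝ, (∀ k : ℕ, 1 ≤ k → 4 * U k ≤ U (2 * k) +
        Real.log (v.nr (4 * cu A B (u ^ 2 * x₀ k)))) ∧
      (∃ C : ℝ, ∀ k : ℕ, 1 ≤ k → U k ≤ Real.log (max (v.nr (u ^ 2 * x₀ k)) 1) + C) ∧
      (∀ k : ℕ, 1 ≤ k → 0 ≤ U (12 * k))) →
      ∃ (t : ℝ) (n : ℕ) (U : ℕ → ℝ), 0 ≤ dl v.nr A₀ B₀ ∧ 1 ≤ n ∧
      (∃ a : ℤ, (n : ℝ) * t = a) ∧
      (dl v.nr A₀ B₀ ≠ 0 → n * Real.log v.q ≤ dl v.nr A₀ B₀) ∧ (t ≠ 0 → IsMul v.nr A₀ B₀) ∧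
      (∀ k : ℕ, 1 ≤ k → 4 * U k - 0 ≤ U (2 * k) +
        Real.log (v.nr (4 * cu A B (u ^ 2 * x₀ k)))) ∧
      (∃ C : ℝ, ∀ k : ℕ, 1 ≤ k → U k ≤ Real.log (max (v.nr (u ^ 2 * x₀ k)) 1) + C) ∧
      (∀ k : ℕ, 1 ≤ k → dl v.nr A₀ B₀ * B2 (k * t) +
        1 / 6 * Real.log (v.nr (dsc A B)) ≤ U (12 * k)) ∧ TEx v A₀ B₀ (x₀ 1) t := by
    rintro ⟨U, hU1, hU2, hU3⟩
    refine ⟨0, 1, U, hdl0, le_rfl, ⟨0, by simp⟩, ?_, fun h => absurd rfl h, ?_, hU2, ?_,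
      Or.inl rfl⟩
    · intro h5
      rw [hdlN] at h5 ⊢
      have hN0 : N ≠ 0 := by rintro rfl; simp at h5
      have hN1 : (1 : ℝ) ≤ N := by exact_mod_cast Nat.one_le_iff_ne_zero.2 hN0
      push_cast
      nlinarith
    · intro k hk; have := hU1 k hk; linarith
    · intro k hk
      have h5 := hU3 k hk
      rw [mul_zero, klb_B2_zero, hdlN, hlogDN]
      linarith
  by_cases hA1 : v.nr A = 1
  · have hA0 : A ≠ 0 := by
      intro h; rw [h, v.nr_zero] at hA1; exact zero_ne_one hA1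
    have hordA : v.ord A = 0 := (v.nr_eq_one_iff hA0).1 hA1
    by_cases hN0 : N = 0
    · -- good reduction
      have hD1 : v.nr (dsc A B) = 1 := (v.nr_eq_one_iff hD).2 (by rw [hN, hN0]; rfl)
      obtain ⟨U, hU1, hU2, hU3, -⟩ := hPG F v h2 h3 A B hD (by
        rw [hD1, v.nr_mul, v.nr_pow]
        exact mul_le_one₀ (v.nr_ofNat 6912) (pow_nonneg (v.nr_nonneg _) _)
          (pow_le_one₀ (v.nr_nonneg _) hAint)) _ _ hg
      apply hzero
      refine ⟨U, hU1, hU2, fun k hk => ?_⟩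
      have := hU3 (12 * k) (by omega)
      rw [hD1, Real.log_one, mul_zero] at this
      exact this
    · -- multiplicative reduction
      have hN1 : 1 ≤ N := Nat.one_le_iff_ne_zero.2 hN0
      have hj : v.ord (6912 * A ^ 3 / dsc A B) = -(N : ℤ) := by
        rw [v.ord_div (mul_ne_zero (by norm_num) (pow_ne_zero _ hA0)) hD,
          v.ord_mul _ _ (by norm_num) (pow_ne_zero _ hA0), v.ord_pow, h6912, hordA, hN]
        simp
      obtain ⟨r, a, U, hr, hU1, hU2, hU3, -, hU5⟩ := hPM F v N hN1 A B hD hj _ _ hg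
      have hr0 : r = 0 := by
        rw [v.ord_mul _ _ (by norm_num) hD, h16, hN] at hr
        omega
      have hNR : (0 : ℝ) < N := by exact_mod_cast hN1
      have hIM : IsMul v.nr A₀ B₀ := by
        refine ⟨u, hA1, hBint, ?_⟩
        have e1 : u ^ 12 * (4 * A₀ ^ 3 + 27 * B₀ ^ 2) = dsc A B := by
          rw [hA, hB, klb_dsc]; rfl
        rw [e1, v.nr_lt_one_iff hD, hN]
        exact_mod_cast hN1
      refine ⟨6 * a / N, N, U, hdl0, hN1, ⟨6 * a, by push_cast; field_simp⟩, ?_, fun _ => hIM, ?_,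
        hU2, ?_, Or.inr ⟨hIM, N, hN1, ?_, hdlN, ?_⟩⟩
      · intro _; rw [hdlN]
      · intro k hk; have := hU1 k hk; linarith
      · intro k hk
        have := hU3 (12 * k) (by omega)
        rw [hr0] at this
        have e1 : (((12 * k : ℕ) : ℝ) * ((a : ℝ) / (2 * N))) = k * (6 * a / N) := by
          push_cast; field_simp; ring
        rw [e1] at this
        rw [hdlN, hlogDN]
        push_cast at this
        linarith
      · rw [← j_scale (A := A₀) (B := B₀) hu0, ← hA, ← hB]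
        exact hj
      · rw [hU5 h2 h3, hA, hB, z_scale hu0]
        ring
  · have hA1' : v.nr A < 1 := lt_of_le_of_ne hAint hA1
    by_cases hN0 : N = 0
    · -- good reduction
      have hD1 : v.nr (dsc A B) = 1 := (v.nr_eq_one_iff hD).2 (by rw [hN, hN0]; rfl)
      obtain ⟨U, hU1, hU2, hU3, -⟩ := hPG F v h2 h3 A B hD (by
        rw [hD1, v.nr_mul, v.nr_pow]
        exact mul_le_one₀ (v.nr_ofNat 6912) (pow_nonneg (v.nr_nonneg _) _)
          (pow_le_one₀ (v.nr_nonneg _) hAint)) _ _ hg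
      apply hzero
      refine ⟨U, hU1, hU2, fun k hk => ?_⟩
      have := hU3 (12 * k) (by omega)
      rw [hD1, Real.log_one, mul_zero] at this
      exact this
    · -- additive reduction
      have hDlt : v.nr (dsc A B) < 1 := by
        rw [v.nr_lt_one_iff hD, hN]
        exact_mod_cast Nat.one_le_iff_ne_zero.2 hN0
      have hBlt : v.nr B < 1 := by
        have h27' : v.nr (27 : F) = 1 := (v.nr_eq_one_iff (by norm_num)).2 h27
        have e1 : 27 * B ^ 2 = dsc A B + -(4 * A ^ 3) := by unfold dsc; ring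
        have e2 : v.nr (27 * B ^ 2) < 1 := by
          rw [e1]
          refine lt_of_le_of_lt (v.nr_add_le _ _) (max_lt hDlt ?_)
          rw [v.nr_neg, v.nr_mul, v.nr_pow]
          calc v.nr 4 * v.nr A ^ 3 ≤ 1 * v.nr A ^ 3 :=
                mul_le_mul_of_nonneg_right (v.nr_ofNat 4) (pow_nonneg (v.nr_nonneg _) _)
            _ = v.nr A ^ 3 := one_mul _
            _ < 1 := pow_lt_one₀ (v.nr_nonneg _) hA1' (by norm_num)
        rw [v.nr_mul, h27', one_mul, v.nr_pow] at e2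
        by_contra hcon
        push Not at hcon
        exact absurd (one_le_pow₀ hcon (n := 2)) (not_le.2 e2)
      have hx12 := hAD F v h2 h3 A B hD hA1' hBlt hmin _ _ hg
      apply hzero
      by_cases hj : v.nr (6912 * A ^ 3) ≤ v.nr (dsc A B)
      · obtain ⟨U, hU1, hU2, -, hU4⟩ := hPG F v h2 h3 A B hD hj _ _ hg
        exact ⟨U, hU1, hU2, fun k hk => hU4 (12 * k) (by omega) (hx12 k hk)⟩
      · push Not at hj
        have hA0 : A ≠ 0 := by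
          intro h
          rw [h] at hj
          simp only [ne_eq, OfNat.ofNat_ne_zero, not_false_eq_true, zero_pow, mul_zero,
            v.nr_zero] at hj
          exact absurd (v.nr_nonneg _) (not_le.2 hj)
        have hne : 6912 * A ^ 3 ≠ 0 := mul_ne_zero (by norm_num) (pow_ne_zero _ hA0)
        have hord : v.ord (6912 * A ^ 3 / dsc A B) < 0 := by
          rw [v.nr_of_ne hne, v.nr_of_ne hD, zpow_lt_zpow_iff_right₀ v.one_lt_q] at hj
          rw [v.ord_div hne hD]; omega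
        obtain ⟨N', hN'⟩ : ∃ N' : ℕ, v.ord (6912 * A ^ 3 / dsc A B) = -(N' : ℤ) :=
          ⟨(-(v.ord (6912 * A ^ 3 / dsc A B))).toNat, by
            rw [Int.toNat_of_nonneg (by omega)]; ring⟩
        have hN1 : 1 ≤ N' := by omega
        obtain ⟨r, a, U, -, hU1, hU2, -, hU4, -⟩ := hPM F v N' hN1 A B hD hN' _ _ hg
        exact ⟨U, hU1, hU2, fun k hk => hU4 h2 h3 hA1' (12 * k) (by omega) (hx12 k hk)⟩

end Pool.Agent.Helper99.LS5
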