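import Pool.Agent.Helper9.LS5.SheetE
import Pool.Agent.Helper99.LS5.KLBX

/-!
Project LS5, row KLB2: the local package with explicit component.
-/

set_option autoImplicit false

open Filter Topology

namespace Pool.Agent.Helper99.LS5

open Pool.Agent.Helper42.LS Pool.Agent.Helper42.LK Pool.Agent.Helper9.LS5

theorem B2_le (t : ℝ) : B2 t ≤ 1 / 6 := by
  unfold B2
  nlinarith [Int.fract_nonneg t, Int.fract_lt_one t]

/-- multiplicative reduction away from 2 and 3: the minimal discriminant is the polar part of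
`j` -/
theorem isMul_facts {F : Type} [Field F] [CharZero F] (hMN : ST_KMN) (v : DV F) (h2 : v.ord 2 = 0)
    (h3 : v.ord 3 = 0) (A B : F) (hD : dsc A B ≠ 0) (hm : IsMul v.nr A B) :
    A ≠ 0 ∧ B ≠ 0 ∧ 0 < Real.log (v.nr (jK A B)) ∧
      dl v.nr A B = Real.log (v.nr (jK A B)) := by
  obtain ⟨u, hA1, hB1, hD1⟩ := hm
  obtain ⟨h6912, h16, h27, h4⟩ := klb_ord_num v h2 h3
  have n4 : v.nr (4 : F) = 1 := (v.nr_eq_one_iff (by norm_num)).2 h4
  have n27 : v.nr (27 : F) = 1 := (v.nr_eq_one_iff (by norm_num)).2 h27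
  have n6912 : v.nr (6912 : F) = 1 := (v.nr_eq_one_iff (by norm_num)).2 h6912
  have hu : u ≠ 0 := by
    rintro rfl
    rw [zero_pow (by norm_num), zero_mul, v.nr_zero] at hA1
    exact zero_ne_one hA1
  have hA : A ≠ 0 := by
    rintro rfl
    rw [mul_zero, v.nr_zero] at hA1
    exact zero_ne_one hA1
  have hD' : u ^ 12 * (4 * A ^ 3 + 27 * B ^ 2) ≠ 0 :=
    mul_ne_zero (pow_ne_zero _ hu) hD
  have hB : B ≠ 0 := by
    rintro rfl
    rw [show u ^ 12 * (4 * A ^ 3 + 27 * (0 : F) ^ 2) = 4 * (u ^ 4 * A) ^ 3 by ring, v.nr_mul,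
      v.nr_pow, n4, hA1] at hD1
    norm_num at hD1
  have hJ : jK A B = 6912 * (u ^ 4 * A) ^ 3 / (u ^ 12 * (4 * A ^ 3 + 27 * B ^ 2)) := by
    unfold jK
    rw [show 6912 * (u ^ 4 * A) ^ 3 = u ^ 12 * (6912 * A ^ 3) by ring,
      mul_div_mul_left _ _ (pow_ne_zero 12 hu)]
  have hpos : 0 < v.nr (u ^ 12 * (4 * A ^ 3 + 27 * B ^ 2)) :=
    lt_of_le_of_ne (v.nr_nonneg _) (v.nr_ne_zero hD').symm
  have hnJ : v.nr (jK A B) = (v.nr (u ^ 12 * (4 * A ^ 3 + 27 * B ^ 2)))⁻¹ := by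
    have h5 : jK A B * (u ^ 12 * (4 * A ^ 3 + 27 * B ^ 2)) = 6912 * (u ^ 4 * A) ^ 3 := by
      rw [hJ, div_mul_cancel₀ _ hD']
    have h6 := congrArg v.nr h5
    rw [v.nr_mul (jK A B) _, v.nr_mul 6912 _, v.nr_pow, n6912, hA1, one_pow, one_mul] at h6
    exact eq_inv_of_mul_eq_one_left h6
  have hlog : Real.log (v.nr (jK A B)) =
      -Real.log (v.nr (u ^ 12 * (4 * A ^ 3 + 27 * B ^ 2))) := by
    rw [hnJ, Real.log_inv]
  have hlpos : 0 < Real.log (v.nr (jK A B)) := by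
    rw [hlog]
    have := Real.log_neg hpos hD1
    linarith
  refine ⟨hA, hB, hlpos, ?_⟩
  obtain ⟨u₀, hu0, huA, huB, -, hdl, hmax⟩ := hMN F v A B hD
  have hle1 : v.nr u ≤ v.nr u₀ := hmax u hu hA1.le hB1
  have hnA : 0 < v.nr A := lt_of_le_of_ne (v.nr_nonneg _) (v.nr_ne_zero hA).symm
  have hle2 : v.nr u₀ ≤ v.nr u := by
    rw [v.nr_mul, v.nr_pow] at huA hA1
    have h7 : v.nr u₀ ^ 4 ≤ v.nr u ^ 4 := by
      rw [← hA1] at huA
      exact le_of_mul_le_mul_right huA hnA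
    exact le_of_pow_le_pow_left₀ (by norm_num) (v.nr_nonneg _) h7
  have heq : v.nr u₀ = v.nr u := le_antisymm hle2 hle1
  rw [hdl, hlog, klb_dsc, v.nr_mul, v.nr_mul, v.nr_pow, v.nr_pow, heq]
  rfl

theorem max_min_mul (a b c : ℝ) (hc : 0 ≤ c) :
    max 0 (min (a * c) (b * c)) = max 0 (min a b) * c := by
  rw [max_mul_of_nonneg _ _ hc, min_mul_of_nonneg _ _ hc, zero_mul]

/-- the explicit parameter -/
theorem tz_eq {F : Type} [Field F] (v : DV F) (A B x : F) (N : ℕ) (hN : 1 ≤ N)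
    (hm : IsMul v.nr A B) (hA : A ≠ 0) (hD : dsc A B ≠ 0) (h6 : (6912 : F) ≠ 0)
    (hv : v.ord (6912 * A ^ 3 / dsc A B) = -(N : ℤ)) :
    tz v.nr A B x = 12 * alpK v N (3 + 2 * A * x / B) / N := by
  have hNR : (0 : ℝ) < N := by exact_mod_cast hN
  have hlq := v.log_q_pos
  have hJ0 : jK A B ≠ 0 :=
    div_ne_zero (mul_ne_zero h6 (pow_ne_zero _ hA)) hD
  have hlJ : Real.log (v.nr (jK A B)) = N * Real.log v.q := by
    have h1 := v.log_nr hJ0
    have h2 : v.ord (jK A B) = -(N : ℤ) := hv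
    rw [h1, h2]
    push_cast
    ring
  unfold tz
  rw [if_pos hm, hlJ]
  have hal : al v.nr A B x = alpK v N (3 + 2 * A * x / B) * Real.log v.q := by
    unfold al alpK
    rw [hlJ]
    by_cases hz : zz A B x = 0
    · have hz' : 3 + 2 * A * x / B = 0 := hz
      rw [if_pos hz, if_pos hz']
      ring
    · have hz' : ¬ 3 + 2 * A * x / B = 0 := hz
      rw [if_neg hz, if_neg hz']
      have h3 : -Real.log (v.nr (zz A B x)) = (v.ord (3 + 2 * A * x / B) : ℝ) * Real.log v.q := by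
        rw [v.log_nr hz]
        unfold zz
        ring
      rw [h3, show (N : ℝ) * Real.log v.q / 2 = (N : ℝ) / 2 * Real.log v.q by ring,
        max_min_mul _ _ _ hlq.le]
  rw [hal]
  field_simp

theorem KLB2 (hPA : ST_KPA) (hPD : ST_KPD) (hPI : Pool.Agent.Helper42.LS.ST_PI) (hPG : ST_KPG)
    (hAD : ST_KAD) (hMN : ST_KMN) (hSC : ST_KSC) : ST_KLB2 := by
  intro F _ _ v h2 h3 A B hD x y hg
  obtain ⟨t, n, U, h4, -, -, -, -, h5, h6, h7, h8⟩ :=
    st_KLBX (st_KPMX hPA hPD hPI) hPG hAD hMN hSC F v h2 h3 A B hD x y hg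
  refine ⟨U, h4, fun hm => isMul_facts hMN v h2 h3 A B hD hm, h5, h6, fun k hk => ?_⟩
  have h9 := h7 k hk
  have h10 : dl v.nr A B * B2 (k * tz v.nr A B (x 1)) ≤ dl v.nr A B * B2 (k * t) := by
    refine mul_le_mul_of_nonneg_left ?_ h4
    rcases h8 with h11 | ⟨hm, N, hN, hv, -, ht⟩
    · rw [h11, mul_zero, klb_B2_zero]
      exact B2_le _
    · have hA := (isMul_facts hMN v h2 h3 A B hD hm).1
      rw [ht, tz_eq v A B (x 1) N hN hm hA hD (by norm_num) hv]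
  linarith

end Pool.Agent.Helper99.LS5
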