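import Pool.Agent.Helper9.LS5.SheetE
import Pool.Agent.Helper99.LS5.KPMX

/-!
Project LS5, row KPM2: the multiplicative place with explicit component.
-/

set_option autoImplicit false

open Filter Topology

namespace Pool.Agent.Helper99.LS5

open Pool.Agent.Helper42.LS Pool.Agent.Helper42.LK Pool.Agent.Helper9.LS5

theorem KPM2 (hPA : ST_KPA) (hPD : ST_KPD) (hPI : Pool.Agent.Helper42.LS.ST_PI) : ST_KPM2 := by
  intro F _ _ v N hN h2 h3 A B hD hv x y hG
  obtain ⟨r, a, U, h4, h5, h6, h7, -, h8⟩ := st_KPMX hPA hPD hPI F v N hN A B hD hv x y hG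
  refine ⟨r, U, h4, h5, h6, fun k hk => ?_⟩
  have h9 := h7 k hk
  have hNR : (0 : ℝ) < N := by exact_mod_cast hN
  have h10 : (a : ℝ) / (2 * N) = alpK v N (zz A B (x 1)) / N := by
    rw [h8 h2 h3]
    unfold zz
    field_simp
  rw [h10] at h9
  exact h9

end Pool.Agent.Helper99.LS5
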