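import Pool.Agent.Helper76.LM.LPM
import Pool.Agent.Helper9.LS5.SheetR

/-!
# LS5 sheet R: row LPM2 (MP_9a3c31_nt)

Several points at a multiplicative place not above 6, with explicit components.
The proof is the one of `Pool.Agent.Helper76.LM.LPM`.
-/

set_option autoImplicit false

open Filter Topology

namespace Pool.Agent.Helper99.LS5

open Pool.Agent.Helper9.LS5 Pool.Agent.Helper9.MTK
open Pool.Agent.Helper54.LM
open Pool.Agent.Helper42.LS Pool.Agent.Helper42.LK

theorem LPM2 (hFT : ST_LFT) : ST_LPM2 := by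
  intro F _ _ μ N hN h52 h53 A B hD hv m x y hG
  have hNz : (1 : ℤ) ≤ N := by exact_mod_cast hN
  have hNR : (0 : ℝ) < N := by exact_mod_cast hN
  have hlogp : 0 < Real.log μ.q := μ.log_q_pos
  have hA : A ≠ 0 := by
    intro h0
    rw [h0] at hv
    rw [show (6912 : F) * 0 ^ 3 / dsc 0 B = 0 by simp, μ.ord_zero] at hv
    omega
  obtain ⟨v2, hv2⟩ : ∃ v, kpdEq μ v (2 : F) := ⟨_, kpd_eq_self (by norm_num)⟩
  obtain ⟨v3, hv3⟩ : ∃ v, kpdEq μ v (3 : F) := ⟨_, kpd_eq_self (by norm_num)⟩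
  obtain ⟨vA, hvA⟩ : ∃ v, kpdEq μ v A := ⟨_, kpd_eq_self hA⟩
  obtain ⟨vD, hvD⟩ : ∃ v, kpdEq μ v (dsc A B) := ⟨_, kpd_eq_self hD⟩
  have hv20 : 0 ≤ v2 := by
    rw [← hv2.2]
    exact μ.ord_ofNat 2
  have hv30 : 0 ≤ v3 := by
    rw [← hv3.2]
    exact μ.ord_ofNat 3
  have h4 : kpdEq μ (2 * v2) (4 : F) := by
    have := kpd_eq_sq hv2
    norm_num at this
    exact this
  have h8 : kpdEq μ (3 * v2) (8 : F) := by
    have := kpd_eq_mul h4 hv2
    norm_num at this
    exact kpd_eq_cast this (by ring)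
  have h9 : kpdEq μ (2 * v3) (9 : F) := by
    have := kpd_eq_sq hv3
    norm_num at this
    exact this
  have h27 : kpdEq μ (3 * v3) (27 : F) := by
    have := kpd_eq_mul h9 hv3
    norm_num at this
    exact kpd_eq_cast this (by ring)
  have h16 : kpdEq μ (4 * v2) (16 : F) := by
    have := kpd_eq_mul h4 h4
    norm_num at this
    exact kpd_eq_cast this (by ring)
  have h18 : kpdEq μ (v2 + 2 * v3) (18 : F) := by
    have := kpd_eq_mul hv2 h9
    norm_num at this
    exact this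
  have h6912 : kpdEq μ (8 * v2 + 3 * v3) (6912 : F) := by
    have := kpd_eq_mul (kpd_eq_mul h16 h16) h27
    norm_num at this
    exact kpd_eq_cast this (by ring)
  have hA2 : kpdEq μ (2 * vA) (A ^ 2) := kpd_eq_sq hvA
  have hA3 : kpdEq μ (3 * vA) (A ^ 3) := by
    have := kpd_eq_mul hA2 hvA
    rw [show A ^ 2 * A = A ^ 3 by ring] at this
    exact kpd_eq_cast this (by ring)
  have hj : 8 * v2 + 3 * v3 + 3 * vA - vD = -(N : ℤ) := by
    rw [μ.ord_div (mul_ne_zero h6912.1 hA3.1) hD, hvD.2, (kpd_eq_mul h6912 hA3).2] at hv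
    exact hv
  have h4A3 : kpdEq μ (2 * v2 + 3 * vA) (4 * A ^ 3) := kpd_eq_mul h4 hA3
  have h27B2 : kpdEq μ (2 * v2 + 3 * vA) (27 * B ^ 2) := by
    have h := kpd_eq_add (kpd_eq_neg h4A3) (kpd_ge_mono (kpd_ge_of_eq hvD) (by omega))
    rw [show -(4 * A ^ 3) + dsc A B = 27 * B ^ 2 by unfold dsc; ring] at h
    exact h
  have hB : B ≠ 0 := by
    intro h0
    exact h27B2.1 (by rw [h0]; ring)
  obtain ⟨vB, hvB⟩ : ∃ v, kpdEq μ v B := ⟨_, kpd_eq_self hB⟩
  have hAB : 3 * v3 + 2 * vB = 2 * v2 + 3 * vA :=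
    (kpd_eq_unique (kpd_eq_mul h27 (kpd_eq_sq hvB)) h27B2).symm
  -- the shift
  set x0 : F := -3 * B / (2 * A) with hx0
  set c0 : F := 3 * x0 with hc0
  set d0 : F := dsc A B / (4 * A ^ 2) with hd0
  set e0 : F := -(B * dsc A B) / (8 * A ^ 3) with he0
  set r : ℤ := v2 + 2 * v3 + vB - vA with hr
  have hvx0 : kpdEq μ (v3 + vB - v2 - vA) x0 := by
    have h : kpdEq μ (v3 + vB) (x0 * (2 * A)) := by
      rw [hx0, show -3 * B / (2 * A) * (2 * A) = -(3 * B) by field_simp]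
      exact kpd_eq_neg (kpd_eq_mul hv3 hvB)
    exact kpd_eq_cast (kpd_eq_of_mul h (kpd_eq_mul hv2 hvA)) (by ring)
  have hvc0 : kpdEq μ r (4 * c0) := by
    refine kpd_eq_cast (kpd_eq_mul h4 (kpd_eq_mul hv3 hvx0)) (by rw [hr]; ring)
  have hvd0 : kpdEq μ (vD - 2 * v2 - 2 * vA) d0 := by
    have h : kpdEq μ vD (d0 * (4 * A ^ 2)) := by
      rw [hd0, div_mul_cancel₀ _ (mul_ne_zero (by norm_num) hA2.1)]
      exact hvD
    exact kpd_eq_cast (kpd_eq_of_mul h (kpd_eq_mul h4 hA2)) (by ring)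
  have hve0 : kpdEq μ (vB + vD - 3 * v2 - 3 * vA) e0 := by
    have h : kpdEq μ (vB + vD) (e0 * (8 * A ^ 3)) := by
      rw [he0, div_mul_cancel₀ _ (mul_ne_zero (by norm_num) hA3.1)]
      exact kpd_eq_neg (kpd_eq_mul hvB hvD)
    exact kpd_eq_cast (kpd_eq_of_mul h (kpd_eq_mul h8 hA3)) (by ring)
  have hshift : ∀ X : F, X ^ 3 + c0 * X ^ 2 + d0 * X + e0 = (X + x0) ^ 3 + A * (X + x0) + B := by
    intro X
    have h1 : d0 = 3 * x0 ^ 2 + A := by
      rw [hd0, hx0]
      unfold dsc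
      field_simp
      ring
    have h2 : e0 = x0 ^ 3 + A * x0 + B := by
      rw [he0, hx0]
      unfold dsc
      field_simp
      ring
    rw [h1, h2, hc0]
    ring
  -- the scaling
  obtain ⟨ϖ, hp0, hϖ, -⟩ := μ.exists_unif
  set π : F := ϖ ^ (-r) with hπ
  have hπ0 : π ≠ 0 := zpow_ne_zero _ hp0
  have hvπ : kpdEq μ (-r) π := by
    refine ⟨hπ0, ?_⟩
    rw [hπ, μ.ord_zpow, hϖ, mul_one]
  set c : F := c0 * π with hc
  set d : F := d0 * π ^ 2 with hd
  set e : F := e0 * π ^ 3 with he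
  have hπ2 : kpdEq μ (2 * -r) (π ^ 2) := kpd_eq_sq hvπ
  have hπ3 : kpdEq μ (3 * -r) (π ^ 3) := by
    have := kpd_eq_mul hπ2 hvπ
    rw [show π ^ 2 * π = π ^ 3 by ring] at this
    exact kpd_eq_cast this (by ring)
  have hcn : μ.nr (4 * c) = 1 := by
    have h := kpd_eq_mul hvc0 hvπ
    rw [show 4 * c0 * π = 4 * c by rw [hc]; ring] at h
    rw [kpd_nr_of_eq h]
    simp
  have hdn : μ.nr d ≤ μ.q ^ (-(N : ℤ)) := by
    rw [kpd_nr_le]
    exact kpd_ge_mono (kpd_ge_of_eq (kpd_eq_mul hvd0 hπ2)) (by rw [hr]; omega)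
  have hen : μ.nr e = μ.q ^ (-(N : ℤ)) := by
    rw [kpd_nr_iff]
    exact kpd_eq_cast (kpd_eq_mul hve0 hπ3) (by rw [hr]; omega)
  set X : (Fin m → ℤ) → F := fun k => (x k - x0) * π with hX
  have hGX : ∀ k, X k ^ 3 + c * X k ^ 2 + d * X k + e = cu A B (x k) * π ^ 3 := by
    intro k
    have h := hshift (x k - x0)
    rw [sub_add_cancel] at h
    have h2 : X k ^ 3 + c * X k ^ 2 + d * X k + e =
        ((x k - x0) ^ 3 + c0 * (x k - x0) ^ 2 + d0 * (x k - x0) + e0) * π ^ 3 := by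
      rw [hc, hd, he]
      simp only [hX]
      ring
    rw [h2, h]
    unfold cu
    ring
  have hcurve : ∀ k, k ≠ 0 → y k ^ 2 = cu A B (x k) := by
    intro k hk
    have := hG.curve k hk
    rw [this]
    unfold cu
    ring
  have hcune : ∀ k, k ≠ 0 → cu A B (x k) ≠ 0 := by
    intro k hk
    rw [← hcurve k hk]
    exact pow_ne_zero 2 (hG.yne k hk)
  have hGne : ∀ k, k ≠ 0 → X k ^ 3 + c * X k ^ 2 + d * X k + e ≠ 0 := by
    intro k hk
    rw [hGX k]
    exact mul_ne_zero (hcune k hk) (pow_ne_zero 3 hπ0)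
  have hcurve0 : ∀ k, k ≠ 0 →
      y k ^ 2 = (x k - x0) ^ 3 + c0 * (x k - x0) ^ 2 + d0 * (x k - x0) + e0 := by
    intro k hk
    rw [hshift (x k - x0), sub_add_cancel, hcurve k hk]
    rfl
  have hsubx : ∀ k l, k ≠ 0 → l ≠ 0 → k ≠ l → k ≠ -l →
      x (k - l) = ((y k + y l) / (x k - x l)) ^ 2 - 0 - x k - x l := by
    intro k l hk hl h1 h2
    have h3 := hG.addx k (-l) hk (neg_ne_zero.2 hl) h2 (by rw [neg_neg]; exact h1)
    rw [hG.negx l hl, hG.negy l hl, sub_neg_eq_add] at h3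
    rw [sub_eq_add_neg]
    exact h3
  have hSP : ∀ k l, k ≠ 0 → l ≠ 0 → k ≠ l → k ≠ -l →
      X k ≠ X l ∧
      (X (k + l) + X (k - l)) * (X k - X l) ^ 2 =
        2 * ((X k + X l) * (d + X k * X l) + 2 * c * X k * X l + 2 * e) ∧
      X (k + l) * X (k - l) * (X k - X l) ^ 2 =
        (X k * X l - d) ^ 2 - 4 * e * (X k + X l + c) := by
    intro k l hk hl h12 h21
    have hne := hG.xne k l hk hl h12 h21
    have h := kpm_sp c0 d0 e0 (x k - x0) (x l - x0) (x (k + l) - x0) (x (k - l) - x0) (y k) (y l)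
      (fun h => hne (sub_left_inj.1 h)) (hcurve0 k hk) (hcurve0 l hl)
      (by rw [hG.addx k l hk hl h12 h21, show x k - x0 - (x l - x0) = x k - x l by ring, hc0]; ring)
      (by rw [hsubx k l hk hl h12 h21, show x k - x0 - (x l - x0) = x k - x l by ring, hc0]; ring)
    refine ⟨fun h => hne ?_, ?_, ?_⟩
    · exact sub_left_inj.1 (mul_right_cancel₀ hπ0 h)
    · have h2 : (X (k + l) + X (k - l)) * (X k - X l) ^ 2 =
          ((x (k + l) - x0 + (x (k - l) - x0)) * (x k - x0 - (x l - x0)) ^ 2) * π ^ 3 := by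
        simp only [hX]
        ring
      rw [h2, h.1, hc, hd, he]
      simp only [hX]
      ring
    · have h2 : X (k + l) * X (k - l) * (X k - X l) ^ 2 =
          ((x (k + l) - x0) * (x (k - l) - x0) * (x k - x0 - (x l - x0)) ^ 2) * π ^ 4 := by
        simp only [hX]
        ring
      rw [h2, h.2, hc, hd, he]
      simp only [hX]
      ring
  have hdbl : ∀ k, k ≠ 0 →
      X (k + k) * (4 * (X k ^ 3 + c * X k ^ 2 + d * X k + e)) =
        (X k ^ 2 - d) ^ 2 - 4 * e * (2 * X k + c) := by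
    intro k hk
    have hd1 : d0 = 3 * x0 ^ 2 + A := by
      have h1 := hshift 1
      have h3 := hshift 0
      simp only [hc0] at h1 h3
      linear_combination h1 - h3
    have h := kpm_dbl c0 d0 e0 (x k - x0) (x (k + k) - x0) (y k) (hG.yne k hk) (hcurve0 k hk)
      (by
        rw [hG.dblx k hk, show 3 * (x k - x0) ^ 2 + 2 * c0 * (x k - x0) + d0
          = 3 * x k ^ 2 + 2 * 0 * x k + A by rw [hd1, hc0]; ring, hc0]
        ring)
    have h2 : X (k + k) * (4 * (X k ^ 3 + c * X k ^ 2 + d * X k + e)) =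
        ((x (k + k) - x0) * (4 * ((x k - x0) ^ 3 + c0 * (x k - x0) ^ 2 + d0 * (x k - x0) + e0))) *
          π ^ 4 := by
      rw [hc, hd, he]
      simp only [hX]
      ring
    rw [h2, h, hc, hd, he]
    simp only [hX]
    ring
  have hPDk : ∀ k, k ≠ 0 →
      alpK μ N (X (k + k)) = min (2 * alpK μ N (X k)) (N - 2 * alpK μ N (X k)) ∧
      4 * upK μ N (X k) = upK μ N (X (k + k)) +
        Real.log (μ.nr (4 * (X k ^ 3 + c * X k ^ 2 + d * X k + e))) := fun k hk =>
    st_KPD F μ N hN c d e hcn hdn hen (X k) (X (k + k)) (hGne k hk) (hdbl k hk)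
  have hPAk : ∀ k l, k ≠ 0 → l ≠ 0 → k ≠ l → k ≠ -l →
      (0 < alpK μ N (X k) ∨ 0 < alpK μ N (X l)) →
      (alpK μ N (X (k + l)) = |alpK μ N (X k) - alpK μ N (X l)| ∧
        alpK μ N (X (k - l)) = min (alpK μ N (X k) + alpK μ N (X l))
          (N - (alpK μ N (X k) + alpK μ N (X l)))) ∨
      (alpK μ N (X (k - l)) = |alpK μ N (X k) - alpK μ N (X l)| ∧
        alpK μ N (X (k + l)) = min (alpK μ N (X k) + alpK μ N (X l))
          (N - (alpK μ N (X k) + alpK μ N (X l)))) := fun k l hk hl h12 h21 h =>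
    st_KPA F μ N hN c d e hcn hdn hen (X k) (X l) (X (k + l)) (X (k - l))
      (hSP k l hk hl h12 h21).1 (hSP k l hk hl h12 h21).2.1 (hSP k l hk hl h12 h21).2.2 h
  -- the folded homomorphism
  classical
  set f : (Fin m → ℤ) → ℝ := fun k => if k = 0 then 0 else alpK μ N (X k) with hf
  have hf0 : f 0 = 0 := by simp [hf]
  have hfk : ∀ k, k ≠ 0 → f k = alpK μ N (X k) := fun k hk => by simp [hf, hk]
  have hfb : ∀ k, 0 ≤ f k ∧ f k ≤ (N : ℝ) / 2 := by
    intro k
    by_cases hk : k = 0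
    · rw [hk, hf0]
      constructor
      · exact le_rfl
      · positivity
    · rw [hfk k hk]
      exact kpm_alp_bounds μ N (X k)
  have hfneg : ∀ k, f (-k) = f k := by
    intro k
    by_cases hk : k = 0
    · rw [hk, neg_zero]
    · rw [hfk k hk, hfk (-k) (neg_ne_zero.2 hk)]
      simp only [hX]
      rw [hG.negx k hk]
  have hfint : ∀ k, ∃ a : ℤ, 2 * f k = a := by
    intro k
    by_cases hk : k = 0
    · exact ⟨0, by rw [hk, hf0]; simp⟩
    · rw [hfk k hk]
      exact kpm_alp_int μ N (X k)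
  have hkk : ∀ k : Fin m → ℤ, k ≠ 0 → k + k ≠ 0 := by
    intro k hk
    have := lpm_nsmul_ne (n := 2) (by norm_num) hk
    rwa [two_nsmul] at this
  obtain ⟨a, ha⟩ := lpm_fold hFT N hN f hfb hf0 hfneg hfint
    (by
      intro k hk
      rw [hfk (k + k) (hkk k hk), hfk k hk]
      exact (hPDk k hk).1)
    (by
      intro k l hk hl h12 h21 hpos
      have h1 : k + l ≠ 0 := fun h => h21 (eq_neg_of_add_eq_zero_left h)
      have h2 : k - l ≠ 0 := sub_ne_zero.2 h12
      rw [hfk k hk, hfk l hl, hfk _ h1, hfk _ h2]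
      rw [hfk k hk, hfk l hl] at hpos
      exact hPAk k l hk hl h12 h21 hpos)
  refine ⟨r, a, ?_, fun k hk => ?_, fun k hk => ?_⟩
  · rw [(kpd_eq_mul h16 hvD).2, hr]
    omega
  · have hz2 : v2 = 0 := by rw [← hv2.2]; exact h52
    have hz3 : v3 = 0 := by rw [← hv3.2]; exact h53
    have hfa := ha k
    rw [hfk k hk] at hfa
    rw [← hfa]
    unfold zz
    -- `X k = Z * (B / (2 A)) * π`
    have hXZ : X k = (3 + 2 * A * x k / B) * (B / (2 * A) * π) := by
      simp only [hX]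
      rw [hx0]
      field_simp
      ring
    have h2A : kpdEq μ (v2 + vA) (2 * A) := kpd_eq_mul hv2 hvA
    have hs : kpdEq μ 0 (B / (2 * A) * π) := by
      have h5 : kpdEq μ (vB - (v2 + vA)) (B / (2 * A)) := by
        have h6 : kpdEq μ vB (B / (2 * A) * (2 * A)) := by
          rw [div_mul_cancel₀ _ h2A.1]
          exact hvB
        exact kpd_eq_of_mul h6 h2A
      exact kpd_eq_cast (kpd_eq_mul h5 hvπ) (by rw [hr, hz2, hz3]; ring)
    rw [hXZ]
    by_cases hZ : 3 + 2 * A * x k / B = 0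
    · rw [hZ, zero_mul]
    · unfold alpK
      rw [if_neg (mul_ne_zero hZ hs.1), if_neg hZ, μ.ord_mul _ _ hZ hs.1, hs.2, add_zero]
  have hnk : ∀ n : ℕ, 1 ≤ n → n • k ≠ 0 := fun n hn => lpm_nsmul_ne hn hk
  have hb := fun k => kpm_alp_bounds μ N (X k)
  refine ⟨fun n => upK μ N (X (n • k)) - r * Real.log μ.q, ?_, ?_, ?_⟩
  · intro n hn
    have h := (hPDk (n • k) (hnk n hn)).2
    rw [hGX (n • k)] at h
    have h4cu : 4 * cu A B (x (n • k)) ≠ 0 := mul_ne_zero (by norm_num) (hcune _ (hnk n hn))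
    obtain ⟨g, hg⟩ : ∃ g, kpdEq μ g (4 * cu A B (x (n • k))) := ⟨_, kpd_eq_self h4cu⟩
    have hg2 := kpd_eq_mul hg hπ3
    rw [show 4 * cu A B (x (n • k)) * π ^ 3 = 4 * (cu A B (x (n • k)) * π ^ 3) by ring] at hg2
    rw [kpd_log_nr hg2] at h
    rw [kpd_log_nr hg]
    have e1 : (2 * n) • k = n • k + n • k := by
      rw [two_mul, add_nsmul]
    push_cast at h
    simp only [e1]
    linarith
  · refine ⟨Real.log (max (μ.q ^ r * max 1 (μ.nr x0)) 1) - r * Real.log μ.q, fun n hn => ?_⟩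
    have hpr : 0 < μ.q ^ r := by
      exact zpow_pos μ.q_pos _
    have hup : upK μ N (X (n • k)) ≤ Real.log (max (μ.nr (X (n • k))) 1) := by
      unfold upK
      have h1 := hb (n • k)
      have : 0 ≤ alpK μ N (X (n • k)) * (N - alpK μ N (X (n • k))) / N * Real.log μ.q := by
        have h2 : 0 ≤ (N : ℝ) - alpK μ N (X (n • k)) := by linarith [h1.2]
        have h3 := h1.1
        positivity
      linarith
    have hnrX : μ.nr (X (n • k)) = μ.nr (x (n • k) - x0) * μ.q ^ r := by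
      have : μ.nr (X (n • k)) = μ.nr (x (n • k) - x0) * μ.nr π := by
        simp only [hX]
        rw [μ.nr_mul]
      rw [this, kpd_nr_of_eq hvπ, neg_neg]
    have hsub : μ.nr (x (n • k) - x0) ≤ max (μ.nr (x (n • k))) (μ.nr x0) := by
      exact μ.nr_sub_le _ _
    have hmax : max (μ.nr (X (n • k))) 1 ≤
        max (μ.nr (x (n • k))) 1 * max (μ.q ^ r * max 1 (μ.nr x0)) 1 := by
      have hm1 : 1 ≤ max (μ.nr (x (n • k))) 1 := le_max_right _ _
      have hm2 : 1 ≤ max (μ.q ^ r * max 1 (μ.nr x0)) 1 := le_max_right _ _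
      refine max_le ?_ ?_
      · rw [hnrX]
        have h1 : μ.nr (x (n • k) - x0) ≤ max (μ.nr (x (n • k))) 1 * max 1 (μ.nr x0) := by
          refine hsub.trans (max_le ?_ ?_)
          · calc μ.nr (x (n • k)) ≤ max (μ.nr (x (n • k))) 1 := le_max_left _ _
              _ = max (μ.nr (x (n • k))) 1 * 1 := (mul_one _).symm
              _ ≤ _ := mul_le_mul_of_nonneg_left (le_max_left _ _) (by linarith)
          · calc μ.nr x0 ≤ max 1 (μ.nr x0) := le_max_right _ _
              _ = 1 * max 1 (μ.nr x0) := (one_mul _).symm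
              _ ≤ _ := mul_le_mul_of_nonneg_right hm1 (le_trans zero_le_one (le_max_left _ _))
        calc μ.nr (x (n • k) - x0) * μ.q ^ r
            ≤ (max (μ.nr (x (n • k))) 1 * max 1 (μ.nr x0)) * μ.q ^ r :=
              mul_le_mul_of_nonneg_right h1 hpr.le
          _ = max (μ.nr (x (n • k))) 1 * (μ.q ^ r * max 1 (μ.nr x0)) := by ring
          _ ≤ _ := mul_le_mul_of_nonneg_left (le_max_left _ _) (by linarith)
      · nlinarith
    have hlog := Real.log_le_log (lt_of_lt_of_le one_pos (le_max_right _ _)) hmax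
    rw [Real.log_mul (by positivity) (by positivity)] at hlog
    simp only
    linarith
  · intro n hn
    have hfn := ha (n • k)
    rw [hfk _ (hnk n hn), lpm_pr_nsmul] at hfn
    have hND : alpK μ N (X (n • k)) * (N - alpK μ N (X (n • k))) / N =
        N * (1 / 6 - B2 (n * pr k (fun i => (a i : ℝ) / (2 * N)))) := by
      rw [hfn, ← kpm_nd_b2]
      field_simp
    have h0 : 0 ≤ Real.log (max (μ.nr (X (n • k))) 1) := Real.log_nonneg (le_max_right _ _)
    simp only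
    unfold upK
    rw [hND]
    linarith

end Pool.Agent.Helper99.LS5
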